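import Pool.Agent.Lib.MP_b1a3a4_al.MVS.HO.Iface

/-!
# Project MVS, part II, module THETA (10.19): iterated substitution
-/

set_option linter.all false

namespace Pool.Agent.Lib.MP_b1a3a4_al.MVS.HO.H59

variable {G : Type} [Group G]

lemma exists_low (F : Set G) (hF : F.Finite) (f : G → ℝ) : ∃ C : ℝ, 0 ≤ C ∧ ∀ x ∈ F, -C ≤ f x := by
  obtain ⟨b, hb⟩ := (hF.image f).bddBelow
  refine ⟨|b|, abs_nonneg _, fun x hx => ?_⟩
  have h1 : b ≤ f x := hb ⟨x, hx, rfl⟩
  linarith [neg_abs_le b]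

/-- pull back of a cocycle under a substitution -/
def pb {H : Type} [Group H] (σ : G →* G) (θ : G → List G) (c : G → G → H) : G → G → H :=
  fun g h => hol c (σ g) (θ (g⁻¹ * h))

lemma subst_cons (θ : G → List G) (x : G) (w : List G) : subst θ (x :: w) = θ x ++ subst θ w := by
  simp [subst]

lemma subst_nil (θ : G → List G) : subst θ ([] : List G) = [] := rfl

lemma hol_pb {H : Type} [Group H] {E Z : Set G} {σ : G →* G} {θ : G → List G}
    (hθ : ∀ e ∈ E, (θ e).prod = σ e) (c : G → G → H) {u : G} {w : List G}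
    (h : InPath E Z u w) : hol (pb σ θ c) u w = hol c (σ u) (subst θ w) := by
  induction w generalizing u with
  | nil => simp [subst_nil]
  | cons x w ih =>
    rw [hol_cons, ih h.2.2, subst_cons, hol_append, hθ x h.2.1, map_mul]
    have h1 : pb σ θ c u (u * x) = hol c (σ u) (θ x) := by
      unfold pb
      rw [inv_mul_cancel_left]
    rw [h1]

lemma inPath_subst {E : Set G} {χ : Chr G} {σ : G →* G} {θ : G → List G}
    (hσ : ∀ g, val χ (σ g) = val χ g) (hθ : ∀ e ∈ E, (θ e).prod = σ e ∧ ∀ x ∈ θ e, x ∈ E)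
    {C : ℝ} (hC0 : 0 ≤ C) (hC : ∀ e ∈ E, ∀ v, v <+: θ e → -C ≤ val χ v.prod) {A : ℝ} {u : G}
    {w : List G} (h : InPath E (up (val χ) A) u w) :
    InPath E (up (val χ) (A - C)) (σ u) (subst θ w) := by
  induction w generalizing u with
  | nil =>
    have h1 : A ≤ val χ u := h
    show A - C ≤ val χ (σ u)
    rw [hσ]
    linarith
  | cons x w ih =>
    rw [subst_cons, inPath_append, (hθ x h.2.1).1, ← map_mul]
    refine ⟨?_, ih h.2.2⟩
    rw [inPath_iff]
    refine ⟨(hθ x h.2.1).2, fun v hv => ?_⟩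
    have h1 : A ≤ val χ u := h.1
    have h2 := hC x h.2.1 v hv
    show A - C ≤ val χ (σ u * v.prod)
    rw [val_mul, hσ]
    linarith

theorem theta (h1 : CarrStatement) : ThetaStatement := by
  intro G _ E hE χ σ hσ θ hθ
  -- carriers
  have hcar : ∀ p : G × G, ∃ F : Set G, F.Finite ∧ (p.1 ∈ E → p.2 ∈ E → p.1 * p.2 ∈ E →
      SameHol E F 1 (θ p.1 ++ θ p.2) (θ (p.1 * p.2))) := by
    intro p
    by_cases h : p.1 ∈ E ∧ p.2 ∈ E ∧ p.1 * p.2 ∈ E
    · obtain ⟨he, hf, hef⟩ := h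
      have h2 : SameHol E Set.univ 1 (θ p.1 ++ θ p.2) (θ (p.1 * p.2)) := by
        apply hE.sameHol
        · intro x hx
          rcases List.mem_append.mp hx with hx | hx
          · exact (hθ _ he).2 x hx
          · exact (hθ _ hf).2 x hx
        · exact (hθ _ hef).2
        · rw [List.prod_append, (hθ _ he).1, (hθ _ hf).1, (hθ _ hef).1, map_mul]
      obtain ⟨F, hF, -, hF2⟩ := h1 G E Set.univ 1 _ _ h2
      exact ⟨F, hF, fun _ _ _ => hF2⟩
    · exact ⟨∅, Set.finite_empty, fun a b c => absurd ⟨a, b, c⟩ h⟩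
  choose Fc hFc hFc2 using hcar
  let F1 : Set G := ⋃ e ∈ E, (fun v : List G => v.prod) '' {v | v ∈ (θ e).inits}
  let F2 : Set G := ⋃ e ∈ E, ⋃ f ∈ E, Fc (e, f)
  have hF1 : F1.Finite := by
    refine hE.fin.biUnion fun e _ => Set.Finite.image _ ?_
    exact List.finite_toSet _
  have hF2 : F2.Finite := hE.fin.biUnion fun e _ => hE.fin.biUnion fun f _ => hFc _
  obtain ⟨C, hC0, hC⟩ := exists_low (F1 ∪ F2) (hF1.union hF2) (val χ)
  have hCθ : ∀ e ∈ E, ∀ v, v <+: θ e → -C ≤ val χ v.prod := by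
    intro e he v hv
    apply hC
    left
    refine Set.mem_biUnion he ⟨v, ?_, rfl⟩
    exact (List.mem_inits _ _).mpr hv
  have hCc : ∀ e ∈ E, ∀ f ∈ E, ∀ x ∈ Fc (e, f), -C ≤ val χ x := by
    intro e he f hf x hx
    apply hC
    right
    exact Set.mem_biUnion he (Set.mem_biUnion hf hx)
  -- the pull back is a cocycle
  have hpb : ∀ (A : ℝ) (H : Type) [Group H] (c : G → G → H), Cocyc E (up (val χ) (A - C)) c →
      Cocyc E (up (val χ) A) (pb σ θ c) := by
    intro A H _ c hc g hg h hh k hk he hf hef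
    have h3 : g⁻¹ * h * (h⁻¹ * k) = g⁻¹ * k := by group
    have h4 := hFc2 (g⁻¹ * h, h⁻¹ * k) he hf (by rw [h3]; exact hef)
    simp only [h3] at h4
    have h5 : SameHol E (up (val χ) (A - C)) (σ g * 1) (θ (g⁻¹ * h) ++ θ (h⁻¹ * k))
        (θ (g⁻¹ * k)) := by
      refine h4.translate (σ g) fun x hx => ?_
      have h6 := hCc _ he _ hf x hx
      have h7 : A ≤ val χ g := hg
      show A - C ≤ val χ (σ g * x)
      rw [val_mul, hσ]
      linarith
    have h8 := h5 H c hc
    rw [mul_one, hol_append, (hθ _ he).1] at h8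
    have h9 : σ g * σ (g⁻¹ * h) = σ h := by
      rw [← map_mul]
      congr 1
      group
    rw [h9] at h8
    exact h8
  refine ⟨C, hC0, fun A u w w' hw hw' hs n => ?_⟩
  induction n with
  | zero =>
    simp only [Nat.cast_zero, zero_mul, sub_zero, Function.iterate_zero, id_eq]
    exact ⟨hw, hw', hs⟩
  | succ n ih =>
    obtain ⟨i1, i2, i3⟩ := ih
    have hA : A - ((n + 1 : ℕ) : ℝ) * C = A - n * C - C := by
      push_cast
      ring
    rw [hA, Function.iterate_succ_apply', Function.iterate_succ_apply', Function.iterate_succ_apply']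
    refine ⟨inPath_subst hσ hθ hC0 hCθ i1, inPath_subst hσ hθ hC0 hCθ i2, ?_⟩
    intro H _ c hc
    have h3 := i3 H _ (hpb (A - n * C) H c hc)
    rwa [hol_pb (fun e he => (hθ e he).1) c i1, hol_pb (fun e he => (hθ e he).1) c i2] at h3

end Pool.Agent.Lib.MP_b1a3a4_al.MVS.HO.H59
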